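import Pool.Agent.H68.L.R_seed8.W262.TW.Stm

/-!
# Part TW-LOC3: local analysis of the coverings at a large prime
-/

set_option autoImplicit false

namespace Pool.Agent.W975.TW

open Finset Polynomial
open Pool.Agent.W262.TW

/-! ### Clearing denominators -/

theorem clear (a : ℚ[X]) : ∃ (m : ℤ) (A : ℤ[X]), m ≠ 0 ∧
    A.map (Int.castRingHom ℚ) = C (m : ℚ) * a := by
  obtain ⟨b, hb⟩ := IsLocalization.integerNormalization_map_to_map (nonZeroDivisors ℤ) a
  refine ⟨b, IsLocalization.integerNormalization (nonZeroDivisors ℤ) a,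
    nonZeroDivisors.coe_ne_zero b, ?_⟩
  have h1 : algebraMap ℤ ℚ = Int.castRingHom ℚ := rfl
  rw [h1] at hb
  rw [hb]
  ext i
  simp [Polynomial.coeff_smul]

theorem bez (f g : ℤ[X]) (hf : Irreducible (f.map (Int.castRingHom ℚ)))
    (hg : Irreducible (g.map (Int.castRingHom ℚ)))
    (h : ¬ Associated (f.map (Int.castRingHom ℚ)) (g.map (Int.castRingHom ℚ))) :
    ∃ (R : ℤ) (A B : ℤ[X]), R ≠ 0 ∧ A * f + B * g = C R := by
  have hc : IsCoprime (f.map (Int.castRingHom ℚ)) (g.map (Int.castRingHom ℚ)) := by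
    rw [hf.coprime_iff_not_dvd]
    exact fun hd => h ((hf.dvd_irreducible_iff_associated hg).1 hd)
  obtain ⟨a, b, hab⟩ := hc
  obtain ⟨m, A, hm, hA⟩ := clear a
  obtain ⟨m', B, hm', hB⟩ := clear b
  refine ⟨m * m', C m' * A, C m * B, mul_ne_zero hm hm', ?_⟩
  apply Polynomial.map_injective (Int.castRingHom ℚ) (Int.cast_injective)
  have e1 : ∀ t : ℤ, (C t : ℤ[X]).map (Int.castRingHom ℚ) = C (t : ℚ) := fun t => by
    rw [Polynomial.map_C]; rfl
  rw [Polynomial.map_add, Polynomial.map_mul, Polynomial.map_mul, Polynomial.map_mul,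
    Polynomial.map_mul, hA, hB, e1, e1, e1, Int.cast_mul]
  have : C ((m' : ℚ)) * (C (m : ℚ) * a) * f.map (Int.castRingHom ℚ) +
      C (m : ℚ) * (C (m' : ℚ) * b) * g.map (Int.castRingHom ℚ) =
      C ((m : ℚ) * m') * (a * f.map (Int.castRingHom ℚ) + b * g.map (Int.castRingHom ℚ)) := by
    rw [C_mul]; ring
  rw [this, hab, mul_one]

/-! ### The homogeneous polynomial -/

theorem hom_map {R S : Type*} [CommRing R] [CommRing S] (φ : R →+* S) (f : ℤ[X]) (x w : R) :
    φ (hom f x w) = hom f (φ x) (φ w) := by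
  simp [hom, map_sum]

theorem hom_smul {R : Type*} [CommRing R] (f : ℤ[X]) (c x w : R) :
    hom f (c * x) (c * w) = c ^ f.natDegree * hom f x w := by
  unfold hom
  rw [Finset.mul_sum]
  refine Finset.sum_congr rfl fun i hi => ?_
  have hi' : i ≤ f.natDegree := by have := mem_range.1 hi; omega
  rw [mul_pow, mul_pow]
  have : c ^ f.natDegree = c ^ i * c ^ (f.natDegree - i) := by
    rw [← pow_add]; congr 1; omega
  rw [this]; ring

theorem hom_one {R : Type*} [CommRing R] (f : ℤ[X]) (x : R) :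
    hom f x 1 = f.eval₂ (Int.castRingHom R) x := by
  unfold hom
  rw [eval₂_eq_sum_range]
  refine Finset.sum_congr rfl fun i _ => ?_
  simp

theorem hom_lc {R : Type*} [CommRing R] (f : ℤ[X]) :
    hom f (1 : R) 0 = (f.leadingCoeff : R) := by
  unfold hom
  rw [Finset.sum_eq_single f.natDegree]
  · simp
  · intro i hi hne
    have : f.natDegree - i ≠ 0 := by have := mem_range.1 hi; omega
    rw [zero_pow this, mul_zero]
  · intro h; simp at h

/-! ### `p`-adic facts -/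

variable {p : ℕ} [hp : Fact p.Prime]

theorem toZ_iff (z : ℤ_[p]) : PadicInt.toZMod z = 0 ↔ ‖z‖ < 1 := by
  rw [← RingHom.mem_ker, PadicInt.ker_toZMod, IsLocalRing.mem_maximalIdeal, PadicInt.mem_nonunits]

theorem par (δ : ℤ) (hδ : Squarefree δ) (hd : (p : ℤ) ∣ δ) (y : ℚ_[p])
    (h : ‖(δ : ℚ_[p]) * y ^ 2‖ ≤ 1) : ‖(δ : ℚ_[p]) * y ^ 2‖ < 1 := by
  by_cases hy : y = 0
  · subst hy; simp
  have hp1 : (1 : ℝ) < p := by exact_mod_cast hp.out.one_lt
  have hp0 : (0 : ℝ) < p := by linarith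
  have hδ0 : (δ : ℚ_[p]) ≠ 0 := by exact_mod_cast hδ.ne_zero
  have h1 : ‖(δ : ℚ_[p])‖ = (p : ℝ) ^ (-(δ : ℚ_[p]).valuation) :=
    Padic.norm_eq_zpow_neg_valuation hδ0
  have h2 : ‖y‖ = (p : ℝ) ^ (-y.valuation) := Padic.norm_eq_zpow_neg_valuation hy
  have h3 : ‖(δ : ℚ_[p])‖ ≤ (p : ℝ) ^ (-(1 : ℕ) : ℤ) := by
    rw [Padic.norm_int_le_pow_iff_dvd]; simpa using hd
  have h4 : ¬ ‖(δ : ℚ_[p])‖ ≤ (p : ℝ) ^ (-(2 : ℕ) : ℤ) := by
    rw [Padic.norm_int_le_pow_iff_dvd]
    intro h5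
    have h6 : IsUnit (p : ℤ) := hδ _ (by
      have : ((p : ℤ) ^ 2) ∣ δ := by exact_mod_cast h5
      rwa [pow_two] at this)
    have h7 := Int.isUnit_iff.1 h6
    have h8 := hp.out.two_le
    omega
  rw [h1, zpow_le_zpow_iff_right₀ hp1] at h3 h4
  have hv : (δ : ℚ_[p]).valuation = 1 := by push_cast at h3 h4; omega
  rw [norm_mul, norm_pow, h1, h2, hv, ← zpow_natCast, ← zpow_mul, ← zpow_add₀ hp0.ne'] at h ⊢
  rw [← zpow_zero (p : ℝ)] at h ⊢
  rw [zpow_le_zpow_iff_right₀ hp1] at h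
  rw [zpow_lt_zpow_iff_right₀ hp1]
  push_cast at h ⊢
  omega

theorem ev_toZ (f : ℤ[X]) (u : ℤ_[p]) :
    PadicInt.toZMod (f.eval₂ (Int.castRingHom ℤ_[p]) u) =
      (((f.eval ((PadicInt.toZMod u).val : ℤ)) : ℤ) : ZMod p) := by
  have h1 := hom_eval₂ f (Int.castRingHom ℤ_[p]) (PadicInt.toZMod (p := p)) u
  have h2 := hom_eval₂ f (RingHom.id ℤ) (Int.castRingHom (ZMod p)) ((PadicInt.toZMod u).val : ℤ)
  rw [h1]
  have h3 : ((f.eval ((PadicInt.toZMod u).val : ℤ) : ℤ) : ZMod p) =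
      (Int.castRingHom (ZMod p)) (f.eval₂ (RingHom.id ℤ) ((PadicInt.toZMod u).val : ℤ)) := rfl
  rw [h3, h2]
  congr 1
  · exact RingHom.ext_int _ _
  · rw [eq_intCast, Int.cast_natCast, ZMod.natCast_zmod_val]

theorem loc3 : LOC3 := by
  intro K _ _ f hirr heven hna
  classical
  have hR : ∀ k l, ∃ R : ℤ, R ≠ 0 ∧ (k ≠ l → ∃ A B : ℤ[X], A * f k + B * f l = C R) := by
    intro k l
    by_cases hkl : k = l
    · exact ⟨1, one_ne_zero, fun h => absurd hkl h⟩
    · obtain ⟨R, A, B, hR, hAB⟩ := bez (f k) (f l) (hirr k) (hirr l) (hna k l hkl)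
      exact ⟨R, hR, fun _ => ⟨A, B, hAB⟩⟩
  choose R hR0 hR using hR
  have hlc : ∀ k, (f k).leadingCoeff ≠ 0 := by
    intro k h
    rw [leadingCoeff_eq_zero] at h
    have := (hirr k).ne_zero
    rw [h] at this
    simp at this
  refine ⟨∑ k, (f k).leadingCoeff.natAbs + ∑ k, ∑ l, (R k l).natAbs, ?_⟩
  intro p hp hz δ hsq hpt i hi
  have hplc : ∀ k, ¬ (p : ℤ) ∣ (f k).leadingCoeff := by
    intro k hd
    have h1 := Int.natAbs_dvd_natAbs.2 hd
    have h2 := Nat.le_of_dvd (Int.natAbs_pos.2 (hlc k)) h1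
    have h3 : (f k).leadingCoeff.natAbs ≤ ∑ k, (f k).leadingCoeff.natAbs :=
      Finset.single_le_sum (f := fun k => (f k).leadingCoeff.natAbs) (fun _ _ => Nat.zero_le _)
        (mem_univ k)
    rw [Int.natAbs_natCast] at h2
    omega
  have hpR : ∀ k l, ¬ (p : ℤ) ∣ R k l := by
    intro k l hd
    have h1 := Int.natAbs_dvd_natAbs.2 hd
    have h2 := Nat.le_of_dvd (Int.natAbs_pos.2 (hR0 k l)) h1
    have h3 : (R k l).natAbs ≤ ∑ l, (R k l).natAbs :=
      Finset.single_le_sum (f := fun l => (R k l).natAbs) (fun _ _ => Nat.zero_le _)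
        (mem_univ l)
    have h4 : ∑ l, (R k l).natAbs ≤ ∑ k, ∑ l, (R k l).natAbs :=
      Finset.single_le_sum (f := fun k => ∑ l, (R k l).natAbs) (fun _ _ => Nat.zero_le _)
        (mem_univ k)
    rw [Int.natAbs_natCast] at h2
    omega
  obtain ⟨x, w, hxw, hpt⟩ := hpt
  -- the scaled solution
  have hscale : ∀ c x' w' : ℚ_[p], c ≠ 0 → x = c * x' → w = c * w' →
      ∀ k, ∃ y : ℚ_[p], hom (f k) x' w' = δ k * y ^ 2 := by
    intro c x' w' hc hx' hw' k
    obtain ⟨y, hy⟩ := hpt k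
    rw [hx', hw', hom_smul] at hy
    obtain ⟨m, hm⟩ := heven k
    refine ⟨y / c ^ m, ?_⟩
    have hcm : c ^ m ≠ 0 := pow_ne_zero _ hc
    rw [hm, pow_add] at hy
    field_simp
    linear_combination hy
  rcases lt_or_ge ‖w‖ ‖x‖ with hlt | hge
  · -- `w` smaller than `x`: impossible
    exfalso
    have hx : x ≠ 0 := by
      intro h; rw [h, norm_zero] at hlt
      exact absurd (norm_nonneg w) (not_le.2 hlt)
    have hxn : 0 < ‖x‖ := norm_pos_iff.2 hx
    have hv : ‖w / x‖ < 1 := by rw [norm_div, div_lt_one hxn]; exact hlt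
    obtain ⟨y, hy⟩ := hscale x 1 (w / x) hx (by ring) (by field_simp) i
    set v : ℤ_[p] := ⟨w / x, hv.le⟩ with hvdef
    have h1 : hom (f i) (1 : ℚ_[p]) (w / x) = ((hom (f i) (1 : ℤ_[p]) v : ℤ_[p]) : ℚ_[p]) := by
      have := hom_map (PadicInt.Coe.ringHom (p := p)) (f i) 1 v
      simp only [map_one] at this
      exact this.symm
    have h2 : PadicInt.toZMod (hom (f i) (1 : ℤ_[p]) v) ≠ 0 := by
      rw [hom_map, map_one, (toZ_iff v).2 hv, hom_lc]
      intro h3
      exact hplc i ((ZMod.intCast_zmod_eq_zero_iff_dvd _ p).1 h3)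
    have h3 : ‖hom (f i) (1 : ℤ_[p]) v‖ ≤ 1 := PadicInt.norm_le_one _
    have h4 : ¬ ‖hom (f i) (1 : ℤ_[p]) v‖ < 1 := fun h => h2 ((toZ_iff _).2 h)
    have h5 := par (δ i) (hsq i) hi y
    rw [← hy, h1] at h5
    exact h4 (h5 h3)
  · have hw : w ≠ 0 := by
      intro h
      rw [h, norm_zero] at hge
      have hx := norm_le_zero_iff.1 hge
      rcases hxw with h' | h'
      · exact h' hx
      · exact h' h
    have hwn : 0 < ‖w‖ := norm_pos_iff.2 hw
    have hu : ‖x / w‖ ≤ 1 := by rw [norm_div, div_le_one hwn]; exact hge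
    have hsc := hscale w (x / w) 1 hw (by field_simp) (by ring)
    set u : ℤ_[p] := ⟨x / w, hu⟩ with hudef
    set F : K → ℤ_[p] := fun k => (f k).eval₂ (Int.castRingHom ℤ_[p]) u with hF
    have hFy : ∀ k, ∃ y : ℚ_[p], ((F k : ℤ_[p]) : ℚ_[p]) = δ k * y ^ 2 := by
      intro k
      obtain ⟨y, hy⟩ := hsc k
      refine ⟨y, ?_⟩
      rw [← hy]
      have := hom_map (PadicInt.Coe.ringHom (p := p)) (f k) u 1
      simp only [map_one] at this
      rw [hom_one] at this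
      exact this
    have hFi : ‖F i‖ < 1 := by
      obtain ⟨y, hy⟩ := hFy i
      have h5 := par (δ i) (hsq i) hi y
      rw [← hy] at h5
      exact h5 (PadicInt.norm_le_one _)
    have hFk : ∀ k, k ≠ i → ¬ ‖F k‖ < 1 := by
      intro k hk h
      obtain ⟨A, B, hAB⟩ := hR k i hk
      have h1 := congrArg (fun q : ℤ[X] => PadicInt.toZMod (q.eval₂ (Int.castRingHom ℤ_[p]) u)) hAB
      simp only [eval₂_add, eval₂_mul, map_add, map_mul, eval₂_C] at h1
      have h2 : PadicInt.toZMod ((f k).eval₂ (Int.castRingHom ℤ_[p]) u) = 0 := (toZ_iff _).2 h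
      have h3 : PadicInt.toZMod ((f i).eval₂ (Int.castRingHom ℤ_[p]) u) = 0 := (toZ_iff _).2 hFi
      rw [h2, h3, mul_zero, mul_zero, add_zero] at h1
      simp only [eq_intCast, map_intCast] at h1
      exact hpR k i ((ZMod.intCast_zmod_eq_zero_iff_dvd _ p).1 h1.symm)
    have hcop : ∀ k, k ≠ i → ¬ (p : ℤ) ∣ δ k := by
      intro k hk hd
      obtain ⟨y, hy⟩ := hFy k
      have h5 := par (δ k) (hsq k) hd y
      rw [← hy] at h5
      exact hFk k hk (h5 (PadicInt.norm_le_one _))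
    refine ⟨hcop, ?_⟩
    set θ : ℕ := (PadicInt.toZMod u).val with hθ
    have hθlt : θ < p := ZMod.val_lt _
    have hev : ∀ k, PadicInt.toZMod (F k) = (((f k).eval (θ : ℤ) : ℤ) : ZMod p) := fun k =>
      ev_toZ (f k) u
    unfold Th
    rw [mem_image]
    refine ⟨θ, ?_, ?_⟩
    · rw [mem_filter, mem_range]
      refine ⟨hθlt, ?_⟩
      have h1 := hev i
      rw [(toZ_iff _).2 hFi] at h1
      exact (ZMod.intCast_zmod_eq_zero_iff_dvd _ p).1 h1.symm
    · unfold ngs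
      ext k
      simp only [mem_filter, mem_univ, true_and, and_congr_right_iff]
      intro hk
      obtain ⟨y, hy⟩ := hFy k
      have hδk : ‖(δ k : ℚ_[p])‖ = 1 := by
        refine le_antisymm (Padic.norm_int_le_one _) (not_lt.1 fun h => hcop k hk ?_)
        exact Padic.norm_intCast_lt_one_iff.1 h
      have hFn : ‖((F k : ℤ_[p]) : ℚ_[p])‖ = 1 :=
        le_antisymm (PadicInt.norm_le_one _) (not_lt.1 (hFk k hk))
      have hyn : ‖y‖ ^ 2 = 1 := by
        rw [hy, norm_mul, norm_pow, hδk, one_mul] at hFn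
        exact hFn
      have hy1 : ‖y‖ = 1 := by
        exact (pow_eq_one_iff_of_nonneg (norm_nonneg y) two_ne_zero).1 hyn
      set Y : ℤ_[p] := ⟨y, hy1.le⟩ with hY
      have hFY : F k = (δ k : ℤ_[p]) * Y ^ 2 := by
        apply PadicInt.ext
        rw [hy]
        push_cast
        rfl
      have hY0 : PadicInt.toZMod Y ≠ 0 := by
        intro h
        have := (toZ_iff Y).1 h
        have h' : ‖Y‖ = 1 := hy1
        linarith
      have h1 := hev k
      rw [hFY, map_mul, map_pow, map_intCast] at h1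
      rw [← jacobiSym.legendreSym.to_jacobiSym, ← jacobiSym.legendreSym.to_jacobiSym]
      unfold legendreSym
      rw [← h1, map_mul, quadraticChar_sq_one' hY0, mul_one]

end Pool.Agent.W975.TW
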